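import Pool.Agent.helper56.SGE.C3
import Pool.Agent.helper50.SGE.C1
import Pool.Agent.helper85.SGE.C2

/-!
Module C4: operations on abstract triangulated spheres (permutation of the list of faces, rotation
and reversal of faces, subdivision of a face) and the two spheres of a ladder program.
-/

set_option autoImplicit false

namespace Pool.Agent.helper6.SGE

open Pool.Agent.helper56.SGE Pool.Agent.helper56.SGE.Vx

theorem rtg_mono {β : Type*} {r p : β → β → Prop} (h : ∀ a b, r a b → p a b) {a b : β}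
    (h2 : Relation.ReflTransGen r a b) : Relation.ReflTransGen p a b :=
  Relation.ReflTransGen.mono h a b h2

theorem rtg_lift {β γ : Type*} {r : β → β → Prop} {p : γ → γ → Prop} (f : β → γ)
    (h : ∀ a b, r a b → p (f a) (f b)) {a b : β} (h2 : Relation.ReflTransGen r a b) :
    Relation.ReflTransGen p (f a) (f b) :=
  Relation.ReflTransGen.lift f h a b h2

theorem mem_dE {α : Type*} {f : Face α} {e : α × α} :
    e ∈ f.dE ↔ e = (f.1, f.2.1) ∨ e = (f.2.1, f.2.2) ∨ e = (f.2.2, f.1) := by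
  simp [Face.dE]

variable {α : Type*} [DecidableEq α]

/-! ### changing the faces one by one -/

/-- `g` has the same corners and the same directed edges as `f` -/
structure RotEq (f g : Face α) : Prop where
  verts : g.verts = f.verts
  dE : ∀ e, e ∈ g.dE ↔ e ∈ f.dE
  sum : ∀ w : α → α → ℝ, w g.1 g.2.1 + w g.2.1 g.2.2 + w g.2.2 g.1 =
    w f.1 f.2.1 + w f.2.1 f.2.2 + w f.2.2 f.1
  ne : (f.1 ≠ f.2.1 ∧ f.2.1 ≠ f.2.2 ∧ f.2.2 ≠ f.1) → (g.1 ≠ g.2.1 ∧ g.2.1 ≠ g.2.2 ∧ g.2.2 ≠ g.1)

theorem RotEq.refl (f : Face α) : RotEq f f := ⟨rfl, fun _ => Iff.rfl, fun _ => rfl, id⟩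

theorem mem_verts {f : Face α} {v : α} : v ∈ f.verts ↔ v = f.1 ∨ v = f.2.1 ∨ v = f.2.2 := by
  simp [Face.verts]

theorem RotEq.rot (a b c : α) : RotEq (a, b, c) (b, c, a) where
  verts := by ext v; simp only [mem_verts]; tauto
  dE e := by simp only [mem_dE]; tauto
  sum w := by ring
  ne h := ⟨h.2.1, h.2.2, h.1⟩

theorem RotEq.trans {f g k : Face α} (h1 : RotEq f g) (h2 : RotEq g k) : RotEq f k where
  verts := h2.verts.trans h1.verts
  dE e := (h2.dE e).trans (h1.dE e)
  sum w := (h2.sum w).trans (h1.sum w)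
  ne h := h2.ne (h1.ne h)

theorem trAdj_congr {o o' : Face α} {F F' : List (Face α)}
    (h1 : ∀ f ∈ o :: F, ∃ g ∈ o' :: F', g.verts = f.verts) {u v : α} (h : trAdj o F u v) :
    trAdj o' F' u v := by
  obtain ⟨hne, f, hf, hu, hv⟩ := h
  obtain ⟨g, hg, hgf⟩ := h1 f hf
  exact ⟨hne, g, hg, hgf ▸ hu, hgf ▸ hv⟩

theorem sphere_perm {S : Finset α} {o : Face α} {F F' : List (Face α)} (h : Sphere S o F)
    (hp : F.Perm F') : Sphere S o F' := by
  have hm : ∀ f, f ∈ F' ↔ f ∈ F := fun f => hp.mem_iff.symm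
  have hm' : ∀ f, f ∈ o :: F' ↔ f ∈ o :: F := fun f => by simp only [List.mem_cons, hm]
  have ht : ∀ u v, trAdj o F' u v ↔ trAdj o F u v := fun u v => by
    unfold trAdj
    simp only [hm']
  constructor
  · intro f hf; exact h.sub f ((hm' f).1 hf)
  · intro f hf; exact h.ne f ((hm' f).1 hf)
  · intro v hv
    obtain ⟨f, hf, h2⟩ := h.cover v hv
    exact ⟨f, (hm f).2 hf, h2⟩
  · intro w hw
    rw [← h.cancel w hw]
    exact (hp.symm.map _).sum_eq
  · intro f hf e he
    rcases h.rev f ((hm f).1 hf) e he with ⟨g, hg, h2⟩ | h2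
    · exact Or.inl ⟨g, (hm g).2 hg, h2⟩
    · exact Or.inr h2
  · intro e he
    obtain ⟨g, hg, h2⟩ := h.rev_o e he
    exact ⟨g, (hm g).2 hg, h2⟩
  · exact ((hp.cons o).pairwise_iff (fun {a b} hab => Ne.symm hab)).1 h.distinct
  · intro f hf u hu v hv hu' hv'
    refine rtg_mono ?_ (h.nonsep f ((hm' f).1 hf) u hu v hv hu' hv')
    rintro a b ⟨ha, hb, hab⟩
    exact ⟨ha, hb, (ht a b).2 hab⟩
  · intro f hf g hg
    refine rtg_mono ?_ (h.conn f ((hm f).1 hf) g ((hm g).1 hg))
    rintro a b ⟨ha, hb, hab⟩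
    exact ⟨(hm a).2 ha, (hm b).2 hb, hab⟩
  · exact h.inner

theorem sphere_map {S : Finset α} {o : Face α} {F : List (Face α)} (h : Sphere S o F)
    (φ : Face α → Face α) (hφ : ∀ f ∈ F, RotEq f (φ f)) : Sphere S o (F.map φ) := by
  have h1 : ∀ f ∈ o :: F, ∃ g ∈ o :: F.map φ, g.verts = f.verts := by
    intro f hf
    rcases List.mem_cons.1 hf with rfl | hf
    · exact ⟨f, List.mem_cons_self, rfl⟩
    · exact ⟨φ f, List.mem_cons_of_mem _ (List.mem_map_of_mem hf), (hφ f hf).verts⟩
  have h2 : ∀ g ∈ o :: F.map φ, ∃ f ∈ o :: F, f.verts = g.verts := by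
    intro g hg
    rcases List.mem_cons.1 hg with rfl | hg
    · exact ⟨g, List.mem_cons_self, rfl⟩
    · obtain ⟨f, hf, rfl⟩ := List.mem_map.1 hg
      exact ⟨f, List.mem_cons_of_mem _ hf, (hφ f hf).verts.symm⟩
  constructor
  · intro g hg
    obtain ⟨f, hf, e⟩ := h2 g hg
    rw [← e]
    exact h.sub f hf
  · intro g hg
    rcases List.mem_cons.1 hg with rfl | hg
    · exact h.ne g List.mem_cons_self
    · obtain ⟨f, hf, rfl⟩ := List.mem_map.1 hg
      exact (hφ f hf).ne (h.ne f (List.mem_cons_of_mem _ hf))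
  · intro v hv
    obtain ⟨f, hf, h3⟩ := h.cover v hv
    exact ⟨φ f, List.mem_map_of_mem hf, (hφ f hf).verts ▸ h3⟩
  · intro w hw
    rw [← h.cancel w hw, List.map_map]
    congr 1
    apply List.map_congr_left
    intro f hf
    exact (hφ f hf).sum w
  · intro g hg e he
    obtain ⟨f, hf, rfl⟩ := List.mem_map.1 hg
    rcases h.rev f hf e (((hφ f hf).dE e).1 he) with ⟨k, hk, h3⟩ | h3
    · exact Or.inl ⟨φ k, List.mem_map_of_mem hk, ((hφ k hk).dE _).2 h3⟩
    · exact Or.inr h3
  · intro e he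
    obtain ⟨g, hg, h3⟩ := h.rev_o e he
    exact ⟨φ g, List.mem_map_of_mem hg, ((hφ g hg).dE _).2 h3⟩
  · have hd := h.distinct
    rw [List.pairwise_cons] at hd ⊢
    refine ⟨?_, ?_⟩
    · intro g hg
      obtain ⟨f, hf, rfl⟩ := List.mem_map.1 hg
      rw [(hφ f hf).verts]
      exact hd.1 f hf
    · rw [List.pairwise_map]
      refine List.Pairwise.imp_of_mem ?_ hd.2
      intro f g hf hg hfg
      rw [(hφ f hf).verts, (hφ g hg).verts]
      exact hfg
  · intro g hg u hu v hv hu' hv'
    obtain ⟨f, hf, e⟩ := h2 g hg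
    rw [← e] at hu' hv' ⊢
    refine rtg_mono ?_ (h.nonsep f hf u hu v hv hu' hv')
    rintro a b ⟨ha, hb, hab⟩
    exact ⟨ha, hb, trAdj_congr h1 hab⟩
  · intro f' hf' g' hg'
    obtain ⟨f, hf, rfl⟩ := List.mem_map.1 hf'
    obtain ⟨g, hg, rfl⟩ := List.mem_map.1 hg'
    refine rtg_lift φ ?_ (h.conn f hf g hg)
    rintro a b ⟨ha, hb, e, he1, he2⟩
    exact ⟨List.mem_map_of_mem ha, List.mem_map_of_mem hb, e, ((hφ a ha).dE e).2 he1,
      ((hφ b hb).dE _).2 he2⟩
  · exact h.inner

/-! ### reversal -/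

/-- the reversed face -/
def rvF (f : Face α) : Face α := (f.1, f.2.2, f.2.1)

theorem rvF_verts (f : Face α) : (rvF f).verts = f.verts := by
  ext v; simp only [mem_verts, rvF]; tauto

theorem mem_rvF {f : Face α} {e : α × α} : e ∈ (rvF f).dE ↔ e.swap ∈ f.dE := by
  rcases e with ⟨x, y⟩
  simp only [mem_dE, rvF, Prod.swap_prod_mk, Prod.mk.injEq]
  tauto

theorem sphere_rv {S : Finset α} {o : Face α} {F : List (Face α)} (h : Sphere S o F) :
    Sphere S (rvF o) (F.map rvF) := by
  have h1 : ∀ f ∈ o :: F, ∃ g ∈ rvF o :: F.map rvF, g.verts = f.verts := by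
    intro f hf
    rcases List.mem_cons.1 hf with rfl | hf
    · exact ⟨rvF f, List.mem_cons_self, rvF_verts f⟩
    · exact ⟨rvF f, List.mem_cons_of_mem _ (List.mem_map_of_mem hf), rvF_verts f⟩
  have h2 : ∀ g ∈ rvF o :: F.map rvF, ∃ f ∈ o :: F, g = rvF f := by
    intro g hg
    rcases List.mem_cons.1 hg with rfl | hg
    · exact ⟨o, List.mem_cons_self, rfl⟩
    · obtain ⟨f, hf, rfl⟩ := List.mem_map.1 hg
      exact ⟨f, List.mem_cons_of_mem _ hf, rfl⟩
  constructor
  · intro g hg
    obtain ⟨f, hf, rfl⟩ := h2 g hg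
    rw [rvF_verts]
    exact h.sub f hf
  · intro g hg
    obtain ⟨f, hf, rfl⟩ := h2 g hg
    have := h.ne f hf
    exact ⟨this.2.2.symm, this.2.1.symm, this.1.symm⟩
  · intro v hv
    obtain ⟨f, hf, h3⟩ := h.cover v hv
    exact ⟨rvF f, List.mem_map_of_mem hf, rvF_verts f ▸ h3⟩
  · intro w hw
    have hc := h.cancel w hw
    rw [List.map_map]
    have e1 : (F.map ((fun f : Face α => w f.1 f.2.1 + w f.2.1 f.2.2 + w f.2.2 f.1) ∘ rvF)).sum =
        -(F.map (fun f : Face α => w f.1 f.2.1 + w f.2.1 f.2.2 + w f.2.2 f.1)).sum := by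
      rw [List.sum_neg, List.map_map]
      congr 1
      apply List.map_congr_left
      intro f _
      simp only [Function.comp, rvF]
      rw [hw f.1 f.2.2, hw f.2.2 f.2.1, hw f.2.1 f.1]
      ring
    rw [e1, hc]
    simp only [rvF]
    rw [hw o.1 o.2.2, hw o.2.2 o.2.1, hw o.2.1 o.1]
    ring
  · intro g hg e he
    obtain ⟨f, hf, rfl⟩ := List.mem_map.1 hg
    rcases h.rev f hf e.swap (mem_rvF.1 he) with ⟨k, hk, h3⟩ | h3
    · refine Or.inl ⟨rvF k, List.mem_map_of_mem hk, ?_⟩
      rw [mem_rvF]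
      exact h3
    · exact Or.inr (mem_rvF.2 h3)
  · intro e he
    obtain ⟨g, hg, h3⟩ := h.rev_o e.swap (mem_rvF.1 he)
    exact ⟨rvF g, List.mem_map_of_mem hg, mem_rvF.2 h3⟩
  · have hd := h.distinct
    have : (rvF o :: F.map rvF) = (o :: F).map rvF := rfl
    rw [this, List.pairwise_map]
    refine hd.imp ?_
    intro f g hfg
    rw [rvF_verts, rvF_verts]
    exact hfg
  · intro g hg u hu v hv hu' hv'
    obtain ⟨f, hf, rfl⟩ := h2 g hg
    rw [rvF_verts] at hu' hv' ⊢
    refine rtg_mono ?_ (h.nonsep f hf u hu v hv hu' hv')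
    rintro a b ⟨ha, hb, hab⟩
    exact ⟨ha, hb, trAdj_congr h1 hab⟩
  · intro f' hf' g' hg'
    obtain ⟨f, hf, rfl⟩ := List.mem_map.1 hf'
    obtain ⟨g, hg, rfl⟩ := List.mem_map.1 hg'
    refine rtg_lift rvF ?_ (h.conn f hf g hg)
    rintro a b ⟨ha, hb, e, he1, he2⟩
    exact ⟨List.mem_map_of_mem ha, List.mem_map_of_mem hb, e.swap, mem_rvF.2 he1,
      mem_rvF.2 he2⟩
  · obtain ⟨v, hv, h3⟩ := h.inner
    exact ⟨v, hv, by rw [rvF_verts]; exact h3⟩

/-! ### subdivision of a face -/

theorem card_verts {f : Face α} (h : f.1 ≠ f.2.1 ∧ f.2.1 ≠ f.2.2 ∧ f.2.2 ≠ f.1) :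
    f.verts.card = 3 := by
  unfold Face.verts
  rw [Finset.card_insert_of_notMem, Finset.card_insert_of_notMem, Finset.card_singleton]
  · simp only [Finset.mem_singleton]; exact h.2.1
  · simp only [Finset.mem_insert, Finset.mem_singleton, not_or]
    exact ⟨h.1, h.2.2.symm⟩

theorem trAdj_symm {o : Face α} {F : List (Face α)} {u v : α} (h : trAdj o F u v) :
    trAdj o F v u := by
  obtain ⟨hne, f, hf, hu, hv⟩ := h
  exact ⟨hne.symm, f, hf, hv, hu⟩

theorem trAdj_mem {S : Finset α} {o : Face α} {F : List (Face α)} (h : Sphere S o F) {u v : α}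
    (ht : trAdj o F u v) : u ∈ S ∧ v ∈ S := by
  obtain ⟨hne, f, hf, hu, hv⟩ := ht
  exact ⟨h.sub f hf hu, h.sub f hf hv⟩

/-- every corner of a face has a neighbour outside the face -/
theorem exists_nb {S : Finset α} {o f : Face α} {F : List (Face α)} (h : Sphere S o (f :: F))
    {y : α} (hy : y ∈ f.verts) : ∃ z ∈ S, z ∉ f.verts ∧ trAdj o (f :: F) y z := by
  have hne := h.ne f (by simp)
  -- an edge with the corner `y`
  obtain ⟨q, he, hq⟩ : ∃ q, (y, q) ∈ f.dE ∧ q ∈ f.verts := by
    rcases mem_verts.1 hy with rfl | rfl | rfl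
    · exact ⟨f.2.1, by simp [mem_dE], by simp [mem_verts]⟩
    · exact ⟨f.2.2, by simp [mem_dE], by simp [mem_verts]⟩
    · exact ⟨f.1, by simp [mem_dE], by simp [mem_verts]⟩
  -- another face with the corner `y`
  obtain ⟨g, hg, hgf, hyg⟩ : ∃ g ∈ o :: f :: F, g.verts ≠ f.verts ∧ y ∈ g.verts := by
    have hd := h.distinct
    rw [List.pairwise_cons, List.pairwise_cons] at hd
    rcases h.rev f (by simp) _ he with ⟨g, hg, h3⟩ | h3
    · rcases List.mem_cons.1 hg with rfl | hg'
      · exfalso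
        simp only [Prod.swap_prod_mk, mem_dE, Prod.mk.injEq] at h3 he
        obtain ⟨n1, n2, n3⟩ := hne
        grind
      · refine ⟨g, by simp [hg'], (hd.2.1 g hg').symm, ?_⟩
        simp only [Prod.swap_prod_mk, mem_dE, Prod.mk.injEq] at h3
        rw [mem_verts]
        tauto
    · refine ⟨o, by simp, hd.1 f (by simp), ?_⟩
      simp only [mem_dE, Prod.mk.injEq] at h3
      rw [mem_verts]
      tauto
  obtain ⟨z, hz, hzf⟩ : ∃ z ∈ g.verts, z ∉ f.verts := by
    by_contra hcon
    push Not at hcon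
    refine hgf (Finset.eq_of_subset_of_card_le hcon ?_)
    rw [card_verts hne, card_verts (h.ne g hg)]
  exact ⟨z, h.sub g hg hz, hzf, fun e => hzf (e ▸ hy), g, hg, hyg, hz⟩

theorem sphere_subdiv {S : Finset α} {o : Face α} {a b c x : α} {F : List (Face α)}
    (h : Sphere S o ((a, b, c) :: F)) (hx : x ∉ S) :
    Sphere (insert x S) o ((a, b, x) :: (b, c, x) :: (c, a, x) :: F) := by
  set f : Face α := (a, b, c) with hf
  set g1 : Face α := (a, b, x) with hg1
  set g2 : Face α := (b, c, x) with hg2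
  set g3 : Face α := (c, a, x) with hg3
  obtain ⟨nab, nbc, nca⟩ : a ≠ b ∧ b ≠ c ∧ c ≠ a := h.ne f (by simp)
  have hfS : f.verts ⊆ S := h.sub f (by simp)
  have haS : a ∈ S := hfS (by simp [mem_verts, hf])
  have hbS : b ∈ S := hfS (by simp [mem_verts, hf])
  have hcS : c ∈ S := hfS (by simp [mem_verts, hf])
  have nxa : x ≠ a := fun e => hx (e ▸ haS)
  have nxb : x ≠ b := fun e => hx (e ▸ hbS)
  have nxc : x ≠ c := fun e => hx (e ▸ hcS)
  have hsubF : ∀ g ∈ o :: F, g.verts ⊆ S := by
    intro g hg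
    apply h.sub
    rcases List.mem_cons.1 hg with rfl | hg
    · simp
    · simp [hg]
  have hxg : ∀ g ∈ o :: F, x ∉ g.verts := fun g hg hm => hx (hsubF g hg hm)
  have hd := h.distinct
  rw [List.pairwise_cons, List.pairwise_cons] at hd
  have hgf : ∀ g ∈ o :: F, g.verts ≠ f.verts := by
    intro g hg
    rcases List.mem_cons.1 hg with rfl | hg
    · exact hd.1 f (by simp)
    · exact (hd.2.1 g hg).symm
  have hfF : f ∉ F := fun hm => hd.2.1 f hm rfl
  have mf : ∀ y, y ∈ f.verts ↔ y = a ∨ y = b ∨ y = c := fun y => by simp [mem_verts, hf]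
  have m1 : ∀ y, y ∈ g1.verts ↔ y = a ∨ y = b ∨ y = x := fun y => by simp [mem_verts, hg1]
  have m2 : ∀ y, y ∈ g2.verts ↔ y = b ∨ y = c ∨ y = x := fun y => by simp [mem_verts, hg2]
  have m3 : ∀ y, y ∈ g3.verts ↔ y = c ∨ y = a ∨ y = x := fun y => by simp [mem_verts, hg3]
  have memo : ∀ g, g ∈ o :: (g1 :: g2 :: g3 :: F) ↔ g = g1 ∨ g = g2 ∨ g = g3 ∨ g ∈ o :: F := by
    intro g; simp only [List.mem_cons]; tauto
  have memN : ∀ g, g ∈ (g1 :: g2 :: g3 :: F) ↔ g = g1 ∨ g = g2 ∨ g = g3 ∨ g ∈ F := by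
    intro g; simp only [List.mem_cons]
  -- adjacency in the new list
  have ht : ∀ u v, trAdj o (f :: F) u v → trAdj o (g1 :: g2 :: g3 :: F) u v := by
    rintro u v ⟨hne, g, hg, hu, hv⟩
    rcases List.mem_cons.1 hg with rfl | hg'
    · exact ⟨hne, g, by simp, hu, hv⟩
    rcases List.mem_cons.1 hg' with rfl | hg'
    · rw [mf] at hu hv
      have : (u ∈ g1.verts ∧ v ∈ g1.verts) ∨ (u ∈ g2.verts ∧ v ∈ g2.verts) ∨
          (u ∈ g3.verts ∧ v ∈ g3.verts) := by
        simp only [m1, m2, m3]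
        rcases hu with rfl | rfl | rfl <;> rcases hv with rfl | rfl | rfl <;> tauto
      rcases this with h3 | h3 | h3
      · exact ⟨hne, g1, by simp, h3.1, h3.2⟩
      · exact ⟨hne, g2, by simp, h3.1, h3.2⟩
      · exact ⟨hne, g3, by simp, h3.1, h3.2⟩
    · exact ⟨hne, g, by simp [hg'], hu, hv⟩
  have hxadj : ∀ y ∈ f.verts, trAdj o (g1 :: g2 :: g3 :: F) x y := by
    intro y hy
    rw [mf] at hy
    rcases hy with rfl | rfl | rfl
    · exact ⟨nxa, g1, by simp, by rw [m1]; tauto, by rw [m1]; tauto⟩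
    · exact ⟨nxb, g1, by simp, by rw [m1]; tauto, by rw [m1]; tauto⟩
    · exact ⟨nxc, g2, by simp, by rw [m2]; tauto, by rw [m2]; tauto⟩
  have symR : ∀ (k : Face α) {u v : α}, Relation.ReflTransGen (fun a b => a ∉ k.verts ∧
      b ∉ k.verts ∧ trAdj o (g1 :: g2 :: g3 :: F) a b) u v →
      Relation.ReflTransGen (fun a b => a ∉ k.verts ∧
      b ∉ k.verts ∧ trAdj o (g1 :: g2 :: g3 :: F) a b) v u := by
    intro k u v huv
    induction huv with
    | refl => exact Relation.ReflTransGen.refl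
    | tail _ hst ih =>
      exact Relation.ReflTransGen.head ⟨hst.2.1, hst.1, trAdj_symm hst.2.2⟩ ih
  constructor
  · -- sub
    intro g hg
    rw [memo] at hg
    rcases hg with rfl | rfl | rfl | hg
    · intro y hy; rw [m1] at hy; rw [Finset.mem_insert]; rcases hy with rfl | rfl | rfl <;> simp [*]
    · intro y hy; rw [m2] at hy; rw [Finset.mem_insert]; rcases hy with rfl | rfl | rfl <;> simp [*]
    · intro y hy; rw [m3] at hy; rw [Finset.mem_insert]; rcases hy with rfl | rfl | rfl <;> simp [*]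
    · exact (hsubF g hg).trans (Finset.subset_insert _ _)
  · -- ne
    intro g hg
    rw [memo] at hg
    rcases hg with rfl | rfl | rfl | hg
    · exact ⟨nab, nxb.symm, nxa⟩
    · exact ⟨nbc, nxc.symm, nxb⟩
    · exact ⟨nca, nxa.symm, nxc⟩
    · apply h.ne
      rcases List.mem_cons.1 hg with rfl | hg
      · simp
      · simp [hg]
  · -- cover
    intro v hv
    rcases Finset.mem_insert.1 hv with rfl | hv
    · exact ⟨g1, by simp, by rw [m1]; tauto⟩
    · obtain ⟨g, hg, hvg⟩ := h.cover v hv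
      rcases List.mem_cons.1 hg with rfl | hg
      · rw [mf] at hvg
        rcases hvg with rfl | rfl | rfl
        · exact ⟨g1, by simp, by rw [m1]; tauto⟩
        · exact ⟨g1, by simp, by rw [m1]; tauto⟩
        · exact ⟨g2, by simp, by rw [m2]; tauto⟩
      · exact ⟨g, by simp [hg], hvg⟩
  · -- cancel
    intro w hw
    have hc := h.cancel w hw
    simp only [List.map_cons, List.sum_cons, hf, hg1, hg2, hg3] at hc ⊢
    rw [← hc, hw x a, hw x b, hw x c]
    ring
  · -- rev
    intro g hg e he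
    rw [memN] at hg
    have old : ∀ e, (∃ g ∈ f :: F, e ∈ g.dE) → ∃ g ∈ (g1 :: g2 :: g3 :: F), e ∈ g.dE := by
      rintro e ⟨g, hg, he⟩
      rcases List.mem_cons.1 hg with rfl | hg
      · simp only [hf, mem_dE] at he
        rcases he with rfl | rfl | rfl
        · exact ⟨g1, by simp, by simp [mem_dE, hg1]⟩
        · exact ⟨g2, by simp, by simp [mem_dE, hg2]⟩
        · exact ⟨g3, by simp, by simp [mem_dE, hg3]⟩
      · exact ⟨g, by simp [hg], he⟩
    have fr : ∀ e ∈ f.dE, (∃ g ∈ (g1 :: g2 :: g3 :: F), e.swap ∈ g.dE) ∨ e ∈ o.dE := by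
      intro e he
      rcases h.rev f (by simp) e he with h3 | h3
      · exact Or.inl (old _ h3)
      · exact Or.inr h3
    rcases hg with rfl | rfl | rfl | hg
    · simp only [hg1, mem_dE] at he
      rcases he with rfl | rfl | rfl
      · exact fr _ (by simp [mem_dE, hf])
      · exact Or.inl ⟨g2, by simp, by simp [mem_dE, hg2]⟩
      · exact Or.inl ⟨g3, by simp, by simp [mem_dE, hg3]⟩
    · simp only [hg2, mem_dE] at he
      rcases he with rfl | rfl | rfl
      · exact fr _ (by simp [mem_dE, hf])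
      · exact Or.inl ⟨g3, by simp, by simp [mem_dE, hg3]⟩
      · exact Or.inl ⟨g1, by simp, by simp [mem_dE, hg1]⟩
    · simp only [hg3, mem_dE] at he
      rcases he with rfl | rfl | rfl
      · exact fr _ (by simp [mem_dE, hf])
      · exact Or.inl ⟨g1, by simp, by simp [mem_dE, hg1]⟩
      · exact Or.inl ⟨g2, by simp, by simp [mem_dE, hg2]⟩
    · rcases h.rev g (by simp [hg]) e he with h3 | h3
      · exact Or.inl (old _ h3)
      · exact Or.inr h3
  · -- rev_o
    intro e he
    obtain ⟨g, hg, h3⟩ := h.rev_o e he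
    rcases List.mem_cons.1 hg with rfl | hg
    · simp only [hf, mem_dE] at h3
      rcases h3 with rfl | rfl | rfl
      · exact ⟨g1, by simp, by simp [mem_dE, hg1]⟩
      · exact ⟨g2, by simp, by simp [mem_dE, hg2]⟩
      · exact ⟨g3, by simp, by simp [mem_dE, hg3]⟩
    · exact ⟨g, by simp [hg], h3⟩
  · -- distinct
    have x1 : x ∈ g1.verts := by rw [m1]; tauto
    have x2 : x ∈ g2.verts := by rw [m2]; tauto
    have x3 : x ∈ g3.verts := by rw [m3]; tauto
    have nx : ∀ g ∈ o :: F, ∀ k : Face α, x ∈ k.verts → k.verts ≠ g.verts := by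
      intro g hg k hk e
      exact hxg g hg (e ▸ hk)
    simp only [List.pairwise_cons]
    refine ⟨?_, ?_, ?_, ?_, hd.2.2⟩
    · intro g hg
      rw [memN] at hg
      rcases hg with rfl | rfl | rfl | hg
      · exact (nx o (by simp) _ x1).symm
      · exact (nx o (by simp) _ x2).symm
      · exact (nx o (by simp) _ x3).symm
      · exact hd.1 g (by simp [hg])
    · intro g hg
      simp only [List.mem_cons] at hg
      rcases hg with rfl | rfl | hg
      · intro e
        have : a ∈ g2.verts := by rw [← e, m1]; tauto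
        rw [m2] at this
        rcases this with h3 | h3 | h3
        · exact nab h3
        · exact nca h3.symm
        · exact nxa h3.symm
      · intro e
        have : b ∈ g3.verts := by rw [← e, m1]; tauto
        rw [m3] at this
        rcases this with h3 | h3 | h3
        · exact nbc h3
        · exact nab h3.symm
        · exact nxb h3.symm
      · exact nx g (by simp [hg]) _ x1
    · intro g hg
      simp only [List.mem_cons] at hg
      rcases hg with rfl | hg
      · intro e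
        have : b ∈ g3.verts := by rw [← e, m2]; tauto
        rw [m3] at this
        rcases this with h3 | h3 | h3
        · exact nbc h3
        · exact nab h3.symm
        · exact nxb h3.symm
      · exact nx g (by simp [hg]) _ x2
    · intro g hg
      exact nx g (by simp [hg]) _ x3
  · -- nonsep
    intro k hk u hu v hv huk hvk
    set R : α → α → Prop := fun a b => a ∉ k.verts ∧ b ∉ k.verts ∧
      trAdj o (g1 :: g2 :: g3 :: F) a b with hR
    rw [memo] at hk
    by_cases hko : k ∈ o :: F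
    · -- an old face
      have key : ∀ w ∈ insert x S, w ∉ k.verts → ∃ w' ∈ S, w' ∉ k.verts ∧
          Relation.ReflTransGen R w w' := by
        intro w hw hwk
        rcases Finset.mem_insert.1 hw with rfl | hw
        · obtain ⟨y, hy, hyk⟩ : ∃ y ∈ f.verts, y ∉ k.verts := by
            by_contra hcon
            push Not at hcon
            refine hgf k hko (Finset.eq_of_subset_of_card_le hcon ?_).symm
            rw [card_verts (h.ne k ?_), card_verts ⟨nab, nbc, nca⟩]
            rcases List.mem_cons.1 hko with rfl | h3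
            · simp
            · simp [h3]
          exact ⟨y, hfS hy, hyk, Relation.ReflTransGen.single ⟨hwk, hyk, hxadj y hy⟩⟩
        · exact ⟨w, hw, hwk, Relation.ReflTransGen.refl⟩
      obtain ⟨u', hu', huk', pu⟩ := key u hu huk
      obtain ⟨v', hv', hvk', pv⟩ := key v hv hvk
      have hk' : k ∈ o :: f :: F := by
        rcases List.mem_cons.1 hko with rfl | h3
        · simp
        · simp [h3]
      have mid : Relation.ReflTransGen R u' v' :=
        rtg_mono (fun p q hpq => ⟨hpq.1, hpq.2.1, ht p q hpq.2.2⟩)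
          (h.nonsep k hk' u' hu' v' hv' huk' hvk')
      exact (pu.trans mid).trans (symR k pv)
    · -- a new face
      have hk3 : x ∈ k.verts ∧ ∀ y ∈ k.verts, y = x ∨ y ∈ f.verts := by
        rcases hk with rfl | rfl | rfl | hk
        · refine ⟨by rw [m1]; tauto, fun y hy => ?_⟩
          rw [m1] at hy; rw [mf]; tauto
        · refine ⟨by rw [m2]; tauto, fun y hy => ?_⟩
          rw [m2] at hy; rw [mf]; tauto
        · refine ⟨by rw [m3]; tauto, fun y hy => ?_⟩
          rw [m3] at hy; rw [mf]; tauto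
        · exact absurd hk hko
      obtain ⟨hxk, hks⟩ := hk3
      have out : ∀ y ∈ S, y ∉ f.verts → y ∉ k.verts := by
        intro y hy hyf hyk
        rcases hks y hyk with rfl | h3
        · exact hx hy
        · exact hyf h3
      have key : ∀ w ∈ insert x S, w ∉ k.verts → ∃ w' ∈ S, w' ∉ f.verts ∧
          Relation.ReflTransGen R w w' := by
        intro w hw hwk
        rcases Finset.mem_insert.1 hw with rfl | hw
        · exact absurd hxk hwk
        · by_cases hwf : w ∈ f.verts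
          · obtain ⟨z, hz, hzf, hwz⟩ := exists_nb h hwf
            exact ⟨z, hz, hzf, Relation.ReflTransGen.single ⟨hwk, out z hz hzf, ht _ _ hwz⟩⟩
          · exact ⟨w, hw, hwf, Relation.ReflTransGen.refl⟩
      obtain ⟨u', hu', huk', pu⟩ := key u hu huk
      obtain ⟨v', hv', hvk', pv⟩ := key v hv hvk
      have mid : Relation.ReflTransGen R u' v' := by
        refine rtg_mono (fun p q hpq => ?_) (h.nonsep f (by simp) u' hu' v' hv' huk' hvk')
        have hm := trAdj_mem h hpq.2.2
        exact ⟨out p hm.1 hpq.1, out q hm.2 hpq.2.1, ht p q hpq.2.2⟩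
      exact (pu.trans mid).trans (symR k pv)
  · -- conn
    set C : Face α → Face α → Prop := fun f g => f ∈ (g1 :: g2 :: g3 :: F) ∧
      g ∈ (g1 :: g2 :: g3 :: F) ∧ ∃ e ∈ f.dE, e.swap ∈ g.dE with hC
    have s12 : C g1 g2 := ⟨by simp, by simp, (b, x), by simp [mem_dE, hg1], by simp [mem_dE, hg2]⟩
    have s23 : C g2 g3 := ⟨by simp, by simp, (c, x), by simp [mem_dE, hg2], by simp [mem_dE, hg3]⟩
    have s31 : C g3 g1 := ⟨by simp, by simp, (a, x), by simp [mem_dE, hg3], by simp [mem_dE, hg1]⟩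
    set Rep : Face α → Face α → Prop := fun g k =>
      (g = f ∧ (k = g1 ∨ k = g2 ∨ k = g3)) ∨ (g ∈ F ∧ k = g) with hRep
    have p12 := Relation.ReflTransGen.single s12
    have p23 := Relation.ReflTransGen.single s23
    have p31 := Relation.ReflTransGen.single s31
    have clus : ∀ g k k', Rep g k → Rep g k' → Relation.ReflTransGen C k k' := by
      rintro g k k' (⟨rfl, h3⟩ | ⟨hg, rfl⟩) (⟨h4, h5⟩ | ⟨hg', rfl⟩)
      · rcases h3 with rfl | rfl | rfl <;> rcases h5 with rfl | rfl | rfl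
        · exact Relation.ReflTransGen.refl
        · exact p12
        · exact p12.trans p23
        · exact p23.trans p31
        · exact Relation.ReflTransGen.refl
        · exact p23
        · exact p31
        · exact p31.trans p12
        · exact Relation.ReflTransGen.refl
      · exact absurd hg' hfF
      · exact absurd (h4 ▸ hg) hfF
      · exact Relation.ReflTransGen.refl
    have rmem : ∀ g k, Rep g k → k ∈ (g1 :: g2 :: g3 :: F) := by
      rintro g k (⟨rfl, h3⟩ | ⟨hg, rfl⟩)
      · rcases h3 with rfl | rfl | rfl <;> simp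
      · simp [hg]
    have redge : ∀ g ∈ f :: F, ∀ e ∈ g.dE, ∃ k, Rep g k ∧ e ∈ k.dE := by
      intro g hg e he
      rcases List.mem_cons.1 hg with rfl | hg
      · simp only [hf, mem_dE] at he
        rcases he with rfl | rfl | rfl
        · exact ⟨g1, Or.inl ⟨rfl, Or.inl rfl⟩, by simp [mem_dE, hg1]⟩
        · exact ⟨g2, Or.inl ⟨rfl, Or.inr (Or.inl rfl)⟩, by simp [mem_dE, hg2]⟩
        · exact ⟨g3, Or.inl ⟨rfl, Or.inr (Or.inr rfl)⟩, by simp [mem_dE, hg3]⟩
      · exact ⟨g, Or.inr ⟨hg, rfl⟩, he⟩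
    have path : ∀ g0 k0, Rep g0 k0 → ∀ g, Relation.ReflTransGen (fun f' g : Face α =>
        f' ∈ f :: F ∧ g ∈ f :: F ∧ ∃ e ∈ f'.dE, e.swap ∈ g.dE) g0 g →
        ∀ k, Rep g k → Relation.ReflTransGen C k0 k := by
      intro g0 k0 h0 g hpath
      induction hpath with
      | refl => exact fun k hk => clus g0 k0 k h0 hk
      | tail _ hstep ih =>
        intro k hk
        obtain ⟨hb, hc, e, he1, he2⟩ := hstep
        obtain ⟨k1, r1, e1⟩ := redge _ hb e he1
        obtain ⟨k2, r2, e2⟩ := redge _ hc _ he2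
        exact ((ih k1 r1).tail ⟨rmem _ _ r1, rmem _ _ r2, e, e1, e2⟩).trans (clus _ _ _ r2 hk)
    have rep : ∀ k ∈ (g1 :: g2 :: g3 :: F), ∃ g ∈ f :: F, Rep g k := by
      intro k hk
      rw [memN] at hk
      rcases hk with rfl | rfl | rfl | hk
      · exact ⟨f, by simp, Or.inl ⟨rfl, Or.inl rfl⟩⟩
      · exact ⟨f, by simp, Or.inl ⟨rfl, Or.inr (Or.inl rfl)⟩⟩
      · exact ⟨f, by simp, Or.inl ⟨rfl, Or.inr (Or.inr rfl)⟩⟩
      · exact ⟨k, by simp [hk], Or.inr ⟨hk, rfl⟩⟩
    intro k hk k' hk'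
    obtain ⟨g, hg, hr⟩ := rep k hk
    obtain ⟨g', hg', hr'⟩ := rep k' hk'
    exact path g k hr g' (h.conn g hg g' hg') k' hr'
  · obtain ⟨v, hv, h3⟩ := h.inner
    exact ⟨v, Finset.mem_insert_of_mem hv, h3⟩

/-- rotation of the first face -/
theorem sphere_rot {S : Finset α} {o : Face α} {a b c : α} {F : List (Face α)}
    (h : Sphere S o ((a, b, c) :: F)) : Sphere S o ((b, c, a) :: F) := by
  have hd := h.distinct
  rw [List.pairwise_cons, List.pairwise_cons] at hd
  have hm : (a, b, c) ∉ F := fun hm => hd.2.1 _ hm rfl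
  have := sphere_map h (fun f => if f = (a, b, c) then (b, c, a) else f) (fun f _ => by
    by_cases e : f = (a, b, c)
    · simp only [e, if_true]; exact RotEq.rot a b c
    · simp only [e, if_false]; exact RotEq.refl f)
  rw [List.map_cons, if_pos rfl] at this
  convert this using 2
  symm
  rw [List.map_congr_left (g := id)]
  · simp
  · intro f hf
    rw [if_neg]
    · rfl
    · rintro rfl
      exact hm hf

/-! ### The two spheres -/

open Pool.Agent.helper56.SGE.Slp

theorem C4a_of (S : Slp) (h : S.WF) (hn : S.path1.Nodup)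
    (hv : ∀ v, v ∈ S.path1 ↔ S.Valid v ∧ v ≠ O ∧ v ≠ H ∧ v ≠ V) :
    Sphere S.vs oF S.faces1 := by
  have hO : O ∉ S.path1 := fun e => ((hv O).1 e).2.1 rfl
  have hH : H ∉ S.path1 := fun e => ((hv H).1 e).2.2.1 rfl
  have hV : V ∉ S.path1 := fun e => ((hv V).1 e).2.2.2 rfl
  have hne : S.path1 ≠ [] := by
    intro e
    have : J ∈ S.path1 := (hv J).2 ⟨trivial, by simp, by simp, by simp⟩
    rw [e] at this
    simp at this
  have hn' : (H :: V :: (S.path1 ++ [O])).Nodup := by
    rw [List.nodup_cons, List.nodup_cons, List.nodup_append]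
    refine ⟨?_, ?_, hn, List.nodup_singleton _, ?_⟩
    · simp [hH]
    · simp [hV]
    · intro a ha b hb
      rw [List.mem_singleton] at hb
      rintro rfl
      exact hO (hb ▸ ha)
  have := Pool.Agent.helper50.C1.cone_sphere (C3a S h) hn' hne
  have e : S.vs = (H :: V :: (S.path1 ++ [O])).toFinset := by
    ext v
    simp only [vs, List.mem_toFinset, List.mem_cons, List.mem_append, List.not_mem_nil, or_false]
    tauto
  rw [e]
  exact this

theorem C4b_of (S : Slp) (h : S.WF)
    (hv1 : ∀ v, v ∈ S.path1 ↔ S.Valid v ∧ v ≠ O ∧ v ≠ H ∧ v ≠ V)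
    (hn : S.path2.Nodup)
    (hv : ∀ v, v ∈ S.path2 ↔ S.Valid v ∧ v ≠ O ∧ v ≠ H ∧ v ≠ V ∧ v ≠ J ∧ v ≠ n) :
    Sphere S.vs oF S.faces2 := by
  have hO : O ∉ S.path2 := fun e => ((hv O).1 e).2.1 rfl
  have hH : H ∉ S.path2 := fun e => ((hv H).1 e).2.2.1 rfl
  have hV : V ∉ S.path2 := fun e => ((hv V).1 e).2.2.2.1 rfl
  have hJ : J ∉ S.path2 := fun e => ((hv J).1 e).2.2.2.2.1 rfl
  have hN : n ∉ S.path2 := fun e => ((hv n).1 e).2.2.2.2.2 rfl
  have hA : A1 ∈ S.path2 := (hv A1).2 ⟨trivial, by simp, by simp, by simp, by simp, by simp⟩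
  have hne : S.path2 ≠ [] := by
    intro e
    rw [e] at hA
    simp at hA
  have hn' : (V :: H :: (S.path2 ++ [O])).Nodup := by
    rw [List.nodup_cons, List.nodup_cons, List.nodup_append]
    refine ⟨?_, ?_, hn, List.nodup_singleton _, ?_⟩
    · simp [hV]
    · simp [hH]
    · intro a ha b hb
      rw [List.mem_singleton] at hb
      rintro rfl
      exact hO (hb ▸ ha)
  have h1 := sphere_rv (Pool.Agent.helper50.C1.cone_sphere (C3b S h) hn' hne)
  set S0 := (V :: H :: (S.path2 ++ [O])).toFinset with hS0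
  have hnS : n ∉ S0 := by
    simp [hS0, hN]
  have hJS : J ∉ insert n S0 := by
    simp [hS0, hJ]
  have hvs : S.vs = insert J (insert n S0) := by
    ext v
    simp only [vs, hS0, List.mem_toFinset, List.mem_cons, List.mem_append, List.not_mem_nil,
      or_false, Finset.mem_insert]
    rw [hv1, hv]
    by_cases e1 : v = O
    · simp [e1]
    by_cases e2 : v = H
    · simp [e2]
    by_cases e3 : v = V
    · simp [e3]
    by_cases e4 : v = J
    · subst e4; simp [Valid]
    by_cases e5 : v = n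
    · subst e5; simp [Valid]
    simp [e1, e2, e3, e4, e5]
  have hperm : S.path2.Perm (A1 :: S.path2.filter (fun m => m ≠ A1)) := by
    have h3 := List.perm_cons_erase hA
    rw [hn.erase_eq_filter] at h3
    have h4 : S.path2.filter (fun m => decide (m ≠ A1)) = S.path2.filter (fun x => x != A1) := by
      apply List.filter_congr
      intro m _
      by_cases e : m = A1 <;> simp [e]
    rw [h4]
    exact h3
  set Q : List (Face Vx) := (pairs (H :: S.path2 ++ [O])).map (fun e => (V, e.2, e.1)) with hQ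
  set P : List (Face Vx) := (S.path2.filter (fun m => m ≠ A1)).map
    (fun m => (S.L2 m, m, S.R2 m)) with hP
  have h2 : Sphere S0 oF ((M, A1, B1) :: (P ++ Q)) := by
    refine sphere_perm h1 ?_
    rw [List.map_append, List.map_map, List.map_map]
    refine List.Perm.append (l₂ := (M, A1, B1) :: P) ?_ ?_
    · exact hperm.map (fun m => (S.L2 m, m, S.R2 m))
    · exact List.Perm.refl _
  have h3 : Sphere (insert n S0) oF ((M, A1, n) :: (A1, B1, n) :: (B1, M, n) :: (P ++ Q)) :=
    sphere_subdiv h2 hnS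
  have h4 : Sphere S.vs oF ((M, A1, J) :: (A1, n, J) :: (n, M, J) ::
      (A1, B1, n) :: (B1, M, n) :: (P ++ Q)) := by
    rw [hvs]
    exact sphere_subdiv h3 hJS
  have h5 : Sphere S.vs oF ((n, M, J) :: (A1, J, M) :: (A1, n, J) ::
      (A1, B1, n) :: (B1, M, n) :: (P ++ Q)) := by
    refine sphere_perm (sphere_rot h4) ?_
    rw [List.perm_iff_count]
    intro a
    simp only [List.count_cons]
    omega
  have h6 : Sphere S.vs oF ((B1, M, n) :: (J, n, M) :: (A1, J, M) :: (A1, n, J) ::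
      (A1, B1, n) :: (P ++ Q)) := by
    refine sphere_perm (sphere_rot (sphere_rot h5)) ?_
    rw [List.perm_iff_count]
    intro a
    simp only [List.count_cons]
    omega
  refine sphere_perm (sphere_rot (sphere_rot h6)) ?_
  have e2 : S.faces2 = P ++ five ++ Q := rfl
  rw [e2, List.perm_iff_count]
  intro a
  simp only [List.count_cons, List.count_append, five, List.count_nil]
  omega

/-- **Module C4**: the first sphere. -/
theorem C4a (S : Slp) (h : S.WF) : Sphere S.vs oF S.faces1 :=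
  C4a_of S h (Pool.Agent.helper85.SGE.C2a S h).1 (Pool.Agent.helper85.SGE.C2a S h).2

/-- **Module C4**: the second sphere. -/
theorem C4b (S : Slp) (h : S.WF) : Sphere S.vs oF S.faces2 :=
  C4b_of S h (Pool.Agent.helper85.SGE.C2a S h).2 (Pool.Agent.helper85.SGE.C2b S h).1
    (Pool.Agent.helper85.SGE.C2b S h).2

end Pool.Agent.helper6.SGE
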