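import Pool.Agent.helper56.SGE.Arith

/-!
Module M4: positive programs and ladder programs.
-/

set_option autoImplicit false

namespace Pool.Agent.helper6.SGE

open Pool.Agent.helper56.SGE

theorem dat_blk (P : Pap) {k c : ℕ} (hk : k < P.K) (hc : c < 6) :
    P.dat (6 * k + 1 + c) = P.blkD k c := by
  unfold Pap.dat
  have h1 : 6 * k + 1 + c ≠ 6 * P.K + 1 := by omega
  have h2 : 6 * k + 1 + c ≠ 6 * P.K + 2 := by omega
  have h3 : (6 * k + 1 + c - 1) / 6 = k := by omega
  have h4 : (6 * k + 1 + c - 1) % 6 = c := by omega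
  rw [if_neg h1, if_neg h2, h3, h4]

theorem dat_last1 (P : Pap) :
    P.dat (6 * P.K + 1) = (.f, P.wpB P.l, P.wpK P.l, P.wbB P.r, false) := by
  unfold Pap.dat
  rw [if_pos rfl]

theorem dat_last2 (P : Pap) :
    P.dat (6 * P.K + 2) = (.g, 6 * P.K + 1, true, P.wbB P.r, false) := by
  unfold Pap.dat
  rw [if_neg (by omega), if_pos rfl]

/-- the rule of a block -/
def Rule (V : ℕ → Bool → ℝ) (j : ℕ) (d : Ty × ℕ × Bool × ℕ × Bool) : Prop :=
  match d.1 with
  | .g => V j false = V d.2.1 d.2.2.1 * V d.2.2.2.1 d.2.2.2.2 / (1 + V d.2.2.2.1 d.2.2.2.2)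
  | .s => 0 < V j true ∧ V j false = V d.2.1 d.2.2.1 / (1 + V j true)
  | .f => V j true = V d.2.1 d.2.2.1 * (1 + V d.2.2.2.1 d.2.2.2.2)

theorem isVal_iff (P : Pap) (V : ℕ → Bool → ℝ) :
    P.toSlp.IsVal V ↔ V 0 false = 1 ∧ ∀ j, 1 ≤ j → j ≤ 6 * P.K + 2 → Rule V j (P.dat j) := by
  unfold Slp.IsVal Rule
  rfl

/-! ### the value -/

/-- the value of the instruction `k` -/
def wv (P : Pap) (V : ℕ → Bool → ℝ) (k : ℕ) : ℝ := V (P.wpB k) (P.wpK k)

/-- the invariant -/
theorem inv {P : Pap} (h : P.WF) {V : ℕ → Bool → ℝ} (h0 : V 0 false = 1)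
    (hv : ∀ j, 1 ≤ j → j ≤ 6 * P.K + 2 → Rule V j (P.dat j)) :
    ∀ k < P.K, 0 < wv P V k ∧ V (P.wbB k) false = (wv P V k)⁻¹ ∧
      (match P.op k with
        | .one => wv P V k = 1
        | .var => wv P V k = 1 + V (6 * k + 1) true ∧ 0 < V (6 * k + 1) true
        | .add => wv P V k = wv P V (P.a k) + wv P V (P.b k)
        | .mul => wv P V k = wv P V (P.a k) * wv P V (P.b k)) := by
  intro k
  induction k using Nat.strong_induction_on with
  | _ k ih =>
  intro hk
  have hr : ∀ c < 6, Rule V (6 * k + 1 + c) (P.blkD k c) := by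
    intro c hc
    have := hv (6 * k + 1 + c) (by omega) (by omega)
    rwa [dat_blk P hk hc] at this
  rcases hop : P.op k with _ | _ | _ | _
  · -- one
    have e1 : wv P V k = V 0 false := by simp only [wv, Pap.wpB, Pap.wpK, hop]
    have e2 : P.wbB k = 0 := by simp only [Pap.wbB, hop]
    rw [e1, e2, h0]
    norm_num
  · -- var
    have e1 : wv P V k = V (6 * k + 2) true := by simp only [wv, Pap.wpB, Pap.wpK, hop]
    have e2 : P.wbB k = 6 * k + 1 := by simp only [Pap.wbB, hop]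
    have r0 := hr 0 (by norm_num)
    have r1 := hr 1 (by norm_num)
    simp only [Rule, Pap.blkD, hop, if_true, if_false, one_ne_zero, Nat.add_zero, h0] at r0 r1
    have e : 6 * k + 1 + 1 = 6 * k + 2 := by ring
    rw [e] at r1
    obtain ⟨rp, rv⟩ := r0
    have hpos : 0 < 1 + V (6 * k + 1) true := by linarith
    rw [e1, e2]
    refine ⟨?_, ?_, ?_, rp⟩
    · rw [r1]; linarith
    · rw [rv, r1]; simp
    · rw [r1]; ring
  · -- add
    have hab := h.1 k hk (Or.inl hop)
    obtain ⟨pa, ia, -⟩ := ih (P.a k) hab.1 (by omega)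
    obtain ⟨pb, ib, -⟩ := ih (P.b k) hab.2 (by omega)
    have e1 : wv P V k = V (6 * k + 5) true := by simp only [wv, Pap.wpB, Pap.wpK, hop]
    have e2 : P.wbB k = 6 * k + 6 := by simp only [Pap.wbB, hop]
    have r0 := hr 0 (by norm_num)
    have r1 := hr 1 (by norm_num)
    have r2 := hr 2 (by norm_num)
    have r3 := hr 3 (by norm_num)
    have r4 := hr 4 (by norm_num)
    have r5 := hr 5 (by norm_num)
    have ea : V (P.wpB (P.a k)) (P.wpK (P.a k)) = wv P V (P.a k) := rfl
    have eb : V (P.wpB (P.b k)) (P.wpK (P.b k)) = wv P V (P.b k) := rfl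
    simp only [Rule, Pap.blkD, hop, if_true, if_false, one_ne_zero,
      show (2 : ℕ) ≠ 0 by norm_num, show (2 : ℕ) ≠ 1 by norm_num, show (3 : ℕ) ≠ 0 by norm_num,
      show (3 : ℕ) ≠ 1 by norm_num, show (3 : ℕ) ≠ 2 by norm_num, show (4 : ℕ) ≠ 0 by norm_num,
      show (4 : ℕ) ≠ 1 by norm_num, show (4 : ℕ) ≠ 2 by norm_num, show (4 : ℕ) ≠ 3 by norm_num,
      show (5 : ℕ) ≠ 0 by norm_num,
      show (5 : ℕ) ≠ 1 by norm_num, show (5 : ℕ) ≠ 2 by norm_num, show (5 : ℕ) ≠ 3 by norm_num,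
      show (5 : ℕ) ≠ 4 by norm_num, ia, ib, ea, eb,
      show 6 * k + 1 + 0 = 6 * k + 1 by ring, show 6 * k + 1 + 1 = 6 * k + 2 by ring,
      show 6 * k + 1 + 2 = 6 * k + 3 by ring, show 6 * k + 1 + 3 = 6 * k + 4 by ring,
      show 6 * k + 1 + 4 = 6 * k + 5 by ring, show 6 * k + 1 + 5 = 6 * k + 6 by ring]
      at r0 r1 r2 r3 r4 r5
    set x := wv P V (P.a k)
    set y := wv P V (P.b k)
    have s1 : V (6 * k + 2) false = y / x := by
      rw [r1, r0]; field_simp
    have s3 : V (6 * k + 4) false = x / y := by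
      rw [r3, r2]; field_simp
    have s4 : V (6 * k + 5) true = x + y := by
      rw [r4, s1]; field_simp
    have s5 : V (6 * k + 6) false = (x + y)⁻¹ := by
      rw [r5, s3]
      have : x + y ≠ 0 := by positivity
      field_simp
      ring
    rw [e1, e2, s4, s5]
    exact ⟨by positivity, rfl, rfl⟩
  · -- mul
    have hab := h.1 k hk (Or.inr hop)
    obtain ⟨pa, ia, -⟩ := ih (P.a k) hab.1 (by omega)
    obtain ⟨pb, ib, -⟩ := ih (P.b k) hab.2 (by omega)
    have e1 : wv P V k = V (6 * k + 2) false := by simp only [wv, Pap.wpB, Pap.wpK, hop]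
    have e2 : P.wbB k = 6 * k + 4 := by simp only [Pap.wbB, hop]
    have r0 := hr 0 (by norm_num)
    have r1 := hr 1 (by norm_num)
    have r2 := hr 2 (by norm_num)
    have r3 := hr 3 (by norm_num)
    have ea : V (P.wpB (P.a k)) (P.wpK (P.a k)) = wv P V (P.a k) := rfl
    have eb : V (P.wpB (P.b k)) (P.wpK (P.b k)) = wv P V (P.b k) := rfl
    simp only [Rule, Pap.blkD, hop, if_true, if_false, one_ne_zero,
      show (2 : ℕ) ≠ 0 by norm_num, show (2 : ℕ) ≠ 1 by norm_num, show (3 : ℕ) ≠ 0 by norm_num,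
      show (3 : ℕ) ≠ 1 by norm_num, show (3 : ℕ) ≠ 2 by norm_num, ia, ib, ea, eb,
      show 6 * k + 1 + 0 = 6 * k + 1 by ring, show 6 * k + 1 + 1 = 6 * k + 2 by ring,
      show 6 * k + 1 + 2 = 6 * k + 3 by ring, show 6 * k + 1 + 3 = 6 * k + 4 by ring]
      at r0 r1 r2 r3
    set x := wv P V (P.a k)
    set y := wv P V (P.b k)
    have s1 : V (6 * k + 2) false = x * y := by
      rw [r1, r0]; field_simp
    have s3 : V (6 * k + 4) false = (x * y)⁻¹ := by
      rw [r3, r2]; field_simp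
    rw [e1, e2, s1, s3]
    exact ⟨by positivity, rfl, rfl⟩

/-! ### the last comparison -/

theorem last_val {P : Pap} (h : P.WF) {V : ℕ → Bool → ℝ} (h0 : V 0 false = 1)
    (hv : ∀ j, 1 ≤ j → j ≤ 6 * P.K + 2 → Rule V j (P.dat j)) :
    V (6 * P.K + 2) false < 1 ↔ wv P V P.l < wv P V P.r := by
  obtain ⟨pl, -, -⟩ := inv h h0 hv P.l h.2.1
  obtain ⟨pr, ir, -⟩ := inv h h0 hv P.r h.2.2
  have r1 := hv (6 * P.K + 1) (by omega) (by omega)
  have r2 := hv (6 * P.K + 2) (by omega) (by omega)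
  rw [dat_last1] at r1
  rw [dat_last2] at r2
  have el : V (P.wpB P.l) (P.wpK P.l) = wv P V P.l := rfl
  simp only [Rule, ir, el] at r1 r2
  have s : V (6 * P.K + 2) false = wv P V P.l / wv P V P.r := by
    rw [r2, r1]; field_simp
  rw [s, div_lt_one pr]

/-! ### existence of values -/

/-- the values of the ports from free values `u` -/
noncomputable def ev (D : ℕ → Ty × ℕ × Bool × ℕ × Bool) (u : ℕ → ℝ) (j : ℕ) : Bool → ℝ :=
  if _h : (D j).2.1 < j ∧ (D j).2.2.2.1 < j then
    match (D j).1 with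
    | .g => fun _ => ev D u (D j).2.1 (D j).2.2.1 * ev D u (D j).2.2.2.1 (D j).2.2.2.2 /
        (1 + ev D u (D j).2.2.2.1 (D j).2.2.2.2)
    | .s => fun t => if t then u j else ev D u (D j).2.1 (D j).2.2.1 / (1 + u j)
    | .f => fun _ => ev D u (D j).2.1 (D j).2.2.1 * (1 + ev D u (D j).2.2.2.1 (D j).2.2.2.2)
  else fun _ => 1
termination_by j
decreasing_by all_goals first | exact _h.1 | exact _h.2

theorem ev_rule (D : ℕ → Ty × ℕ × Bool × ℕ × Bool) (u : ℕ → ℝ) (j : ℕ)
    (h : (D j).2.1 < j ∧ (D j).2.2.2.1 < j) (hu : (D j).1 = .s → 0 < u j) :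
    Rule (ev D u) j (D j) := by
  unfold Rule
  rcases ht : (D j).1 with _ | _ | _
  · have e : ev D u j = fun _ => ev D u (D j).2.1 (D j).2.2.1 *
        ev D u (D j).2.2.2.1 (D j).2.2.2.2 / (1 + ev D u (D j).2.2.2.1 (D j).2.2.2.2) := by
      rw [ev, dif_pos h, ht]
    show ev D u j false = _
    rw [congrFun e false]
  · have e : ev D u j = fun t => if t then u j else
        ev D u (D j).2.1 (D j).2.2.1 / (1 + u j) := by
      rw [ev, dif_pos h, ht]
    show 0 < ev D u j true ∧ ev D u j false = _ / (1 + ev D u j true)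
    rw [congrFun e false, congrFun e true]
    exact ⟨hu ht, rfl⟩
  · have e : ev D u j = fun _ => ev D u (D j).2.1 (D j).2.2.1 *
        (1 + ev D u (D j).2.2.2.1 (D j).2.2.2.2) := by
      rw [ev, dif_pos h, ht]
    show ev D u j true = _
    rw [congrFun e true]

theorem ev_zero (D : ℕ → Ty × ℕ × Bool × ℕ × Bool) (u : ℕ → ℝ) : ev D u 0 = fun _ => 1 := by
  rw [ev, dif_neg (by omega)]

/-! ### well-formedness -/

theorem ty_blk (P : Pap) {k c : ℕ} (hk : k < P.K) (hc : c < 6) :
    P.toSlp.ty (6 * k + 1 + c) = (P.blkD k c).1 := by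
  show (P.dat (6 * k + 1 + c)).1 = _
  rw [dat_blk P hk hc]

theorem port_g {S : Slp} {i : ℕ} (h : i ≠ 0) (ht : S.ty i = .g) : S.OkPort i false :=
  Or.inr ⟨h, Or.inl ⟨ht, rfl⟩⟩

theorem port_f {S : Slp} {i : ℕ} (h : i ≠ 0) (ht : S.ty i = .f) : S.OkPort i true :=
  Or.inr ⟨h, Or.inr (Or.inl ⟨ht, rfl⟩)⟩

theorem port_s {S : Slp} {i : ℕ} {k : Bool} (h : i ≠ 0) (ht : S.ty i = .s) : S.OkPort i k :=
  Or.inr ⟨h, Or.inr (Or.inr ht)⟩

theorem port_zero (S : Slp) : S.OkPort 0 false := Or.inl ⟨rfl, rfl⟩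

theorem port_wp (P : Pap) {k : ℕ} (hk : k < P.K) : P.toSlp.OkPort (P.wpB k) (P.wpK k) := by
  unfold Pap.wpB Pap.wpK
  rcases hop : P.op k with _ | _ | _ | _
  · exact port_zero _
  · refine port_f (by simp) ?_
    have := ty_blk P hk (c := 1) (by norm_num)
    rw [show 6 * k + 2 = 6 * k + 1 + 1 by ring, this]
    simp [Pap.blkD, hop]
  · refine port_f (by simp) ?_
    have := ty_blk P hk (c := 4) (by norm_num)
    rw [show 6 * k + 5 = 6 * k + 1 + 4 by ring, this]
    simp [Pap.blkD, hop]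
  · refine port_g (by simp) ?_
    have := ty_blk P hk (c := 1) (by norm_num)
    rw [show 6 * k + 2 = 6 * k + 1 + 1 by ring, this]
    simp [Pap.blkD, hop]

theorem port_wb (P : Pap) {k : ℕ} (hk : k < P.K) : P.toSlp.OkPort (P.wbB k) false := by
  unfold Pap.wbB
  rcases hop : P.op k with _ | _ | _ | _
  · exact port_zero _
  · refine port_s (by simp) ?_
    have := ty_blk P hk (c := 0) (by norm_num)
    rw [show 6 * k + 1 = 6 * k + 1 + 0 by ring, this]
    simp [Pap.blkD, hop]
  · refine port_g (by simp) ?_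
    have := ty_blk P hk (c := 5) (by norm_num)
    rw [show 6 * k + 6 = 6 * k + 1 + 5 by ring, this]
    simp [Pap.blkD, hop]
  · refine port_g (by simp) ?_
    have := ty_blk P hk (c := 3) (by norm_num)
    rw [show 6 * k + 4 = 6 * k + 1 + 3 by ring, this]
    simp [Pap.blkD, hop]

theorem wpB_le (P : Pap) (k : ℕ) : P.wpB k ≤ 6 * k + 5 := by
  unfold Pap.wpB
  rcases P.op k with _ | _ | _ | _ <;> simp only <;> omega

theorem wbB_le (P : Pap) (k : ℕ) : P.wbB k ≤ 6 * k + 6 := by
  unfold Pap.wbB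
  rcases P.op k with _ | _ | _ | _ <;> simp only <;> omega

/-- everything needed about the data of one block -/
def Good (P : Pap) (j : ℕ) (d : Ty × ℕ × Bool × ℕ × Bool) : Prop :=
  (d.2.1 < j ∧ d.2.2.2.1 < j) ∧ P.toSlp.OkPort d.2.1 d.2.2.1 ∧
    P.toSlp.OkPort d.2.2.2.1 d.2.2.2.2

theorem good_blk {P : Pap} (h : P.WF) {k c : ℕ} (hk : k < P.K) (hc : c < 6) :
    Good P (6 * k + 1 + c) (P.blkD k c) := by
  rcases hop : P.op k with _ | _ | _ | _
  · simp only [Pap.blkD, hop]
    exact ⟨⟨by simp only; omega, by simp only; omega⟩, port_zero _, port_zero _⟩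
  · have t0 : P.toSlp.OkPort (6 * k + 1) true := by
      refine port_s (by omega) ?_
      rw [show 6 * k + 1 = 6 * k + 1 + 0 by ring, ty_blk P hk (c := 0) (by norm_num)]
      simp [Pap.blkD, hop]
    simp only [Pap.blkD, hop]
    split_ifs
    · exact ⟨⟨by simp only; omega, by simp only; omega⟩, port_zero _, port_zero _⟩
    · exact ⟨⟨by simp only; omega, by simp only; omega⟩, port_zero _, t0⟩
    · exact ⟨⟨by simp only; omega, by simp only; omega⟩, port_zero _, port_zero _⟩
  · have hab := h.1 k hk (Or.inl hop)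
    have w1 := wpB_le P (P.a k)
    have w2 := wpB_le P (P.b k)
    have w3 := wbB_le P (P.a k)
    have w4 := wbB_le P (P.b k)
    have p1 := port_wp P (k := P.a k) (by omega)
    have p2 := port_wp P (k := P.b k) (by omega)
    have p3 := port_wb P (k := P.a k) (by omega)
    have p4 := port_wb P (k := P.b k) (by omega)
    have t0 : P.toSlp.OkPort (6 * k + 1) true := by
      refine port_f (by omega) ?_
      rw [show 6 * k + 1 = 6 * k + 1 + 0 by ring, ty_blk P hk (c := 0) (by norm_num)]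
      simp [Pap.blkD, hop]
    have t2 : P.toSlp.OkPort (6 * k + 3) true := by
      refine port_f (by omega) ?_
      rw [show 6 * k + 3 = 6 * k + 1 + 2 by ring, ty_blk P hk (c := 2) (by norm_num)]
      simp [Pap.blkD, hop]
    have t1 : P.toSlp.OkPort (6 * k + 2) false := by
      refine port_g (by omega) ?_
      rw [show 6 * k + 2 = 6 * k + 1 + 1 by ring, ty_blk P hk (c := 1) (by norm_num)]
      simp [Pap.blkD, hop]
    have t3 : P.toSlp.OkPort (6 * k + 4) false := by
      refine port_g (by omega) ?_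
      rw [show 6 * k + 4 = 6 * k + 1 + 3 by ring, ty_blk P hk (c := 3) (by norm_num)]
      simp [Pap.blkD, hop]
    simp only [Pap.blkD, hop]
    split_ifs
    · exact ⟨⟨by simp only; omega, by simp only; omega⟩, p2, p3⟩
    · exact ⟨⟨by simp only; omega, by simp only; omega⟩, t0, p3⟩
    · exact ⟨⟨by simp only; omega, by simp only; omega⟩, p4, p1⟩
    · exact ⟨⟨by simp only; omega, by simp only; omega⟩, t2, p1⟩
    · exact ⟨⟨by simp only; omega, by simp only; omega⟩, p1, t1⟩
    · exact ⟨⟨by simp only; omega, by simp only; omega⟩, p3, t3⟩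
  · have hab := h.1 k hk (Or.inr hop)
    have w1 := wpB_le P (P.a k)
    have w2 := wpB_le P (P.b k)
    have w3 := wbB_le P (P.a k)
    have w4 := wbB_le P (P.b k)
    have p1 := port_wp P (k := P.a k) (by omega)
    have p2 := port_wp P (k := P.b k) (by omega)
    have p3 := port_wb P (k := P.a k) (by omega)
    have p4 := port_wb P (k := P.b k) (by omega)
    have t0 : P.toSlp.OkPort (6 * k + 1) true := by
      refine port_f (by omega) ?_
      rw [show 6 * k + 1 = 6 * k + 1 + 0 by ring, ty_blk P hk (c := 0) (by norm_num)]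
      simp [Pap.blkD, hop]
    have t2 : P.toSlp.OkPort (6 * k + 3) true := by
      refine port_f (by omega) ?_
      rw [show 6 * k + 3 = 6 * k + 1 + 2 by ring, ty_blk P hk (c := 2) (by norm_num)]
      simp [Pap.blkD, hop]
    simp only [Pap.blkD, hop]
    split_ifs
    · exact ⟨⟨by simp only; omega, by simp only; omega⟩, p1, p2⟩
    · exact ⟨⟨by simp only; omega, by simp only; omega⟩, t0, p2⟩
    · exact ⟨⟨by simp only; omega, by simp only; omega⟩, p3, p4⟩
    · exact ⟨⟨by simp only; omega, by simp only; omega⟩, t2, p4⟩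
    · exact ⟨⟨by simp only; omega, by simp only; omega⟩, port_zero _, port_zero _⟩

theorem good_all {P : Pap} (h : P.WF) (j : ℕ) (h1 : 1 ≤ j) (h2 : j ≤ 6 * P.K + 2) :
    Good P j (P.dat j) := by
  by_cases e1 : j = 6 * P.K + 1
  · subst e1
    rw [dat_last1]
    have w1 := wpB_le P P.l
    have w2 := wbB_le P P.r
    have := h.2.1
    have := h.2.2
    exact ⟨⟨by simp only; omega, by simp only; omega⟩, port_wp P h.2.1, port_wb P h.2.2⟩
  by_cases e2 : j = 6 * P.K + 2
  · subst e2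
    rw [dat_last2]
    have w2 := wbB_le P P.r
    have := h.2.2
    refine ⟨⟨by simp only; omega, by simp only; omega⟩, port_f (by simp only; omega) ?_,
      port_wb P h.2.2⟩
    show (P.dat (6 * P.K + 1)).1 = _
    rw [dat_last1]
  have e : j = 6 * ((j - 1) / 6) + 1 + (j - 1) % 6 := by omega
  have hk : (j - 1) / 6 < P.K := by omega
  have hc : (j - 1) % 6 < 6 := Nat.mod_lt _ (by norm_num)
  have := good_blk h hk hc
  rw [← dat_blk P hk hc, ← e] at this
  exact this

theorem toSlp_WF {P : Pap} (h : P.WF) : P.toSlp.WF where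
  one_le := by show 1 ≤ 6 * P.K + 2; omega
  last := by show (P.dat (6 * P.K + 2)).1 = _; rw [dat_last2]
  A_lt j h1 h2 := (good_all h j h1 h2).1.1
  B_lt j h1 h2 := (good_all h j h1 h2).1.2
  okA j h1 h2 := (good_all h j h1 h2).2.1
  okB j h1 h2 := (good_all h j h1 h2).2.2

/-- a block of type `s` belongs to a variable -/
theorem ty_s {P : Pap} {j : ℕ} (h1 : 1 ≤ j) (h2 : j ≤ 6 * P.K + 2) (ht : (P.dat j).1 = .s) :
    (j - 1) / 6 < P.K ∧ P.op ((j - 1) / 6) = .var ∧ j = 6 * ((j - 1) / 6) + 1 := by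
  by_cases e1 : j = 6 * P.K + 1
  · subst e1
    rw [dat_last1] at ht
    cases ht
  by_cases e2 : j = 6 * P.K + 2
  · subst e2
    rw [dat_last2] at ht
    cases ht
  have e : j = 6 * ((j - 1) / 6) + 1 + (j - 1) % 6 := by omega
  have hk : (j - 1) / 6 < P.K := by omega
  have hc : (j - 1) % 6 < 6 := Nat.mod_lt _ (by norm_num)
  have ed : P.dat j = P.blkD ((j - 1) / 6) ((j - 1) % 6) := by
    rw [← dat_blk P hk hc, ← e]
  rw [ed] at ht
  refine ⟨hk, ?_⟩
  rcases hop : P.op ((j - 1) / 6) with _ | _ | _ | _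
  · simp only [Pap.blkD, hop] at ht
    cases ht
  · simp only [Pap.blkD, hop] at ht
    split_ifs at ht with h0
    · exact ⟨rfl, by omega⟩
  · simp only [Pap.blkD, hop] at ht
    split_ifs at ht
  · simp only [Pap.blkD, hop] at ht
    split_ifs at ht

/-! ### the theorem -/

theorem sat_of_slp {P : Pap} (h : P.WF) (hs : P.toSlp.Sat) : P.Sat := by
  obtain ⟨V, hV, hlt⟩ := hs
  rw [isVal_iff] at hV
  obtain ⟨h0, hv⟩ := hV
  have hi := inv h h0 hv
  refine ⟨wv P V, ?_, (last_val h h0 hv).1 hlt⟩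
  intro k hk
  obtain ⟨-, -, h3⟩ := hi k hk
  rcases hop : P.op k with _ | _ | _ | _
  · rw [hop] at h3
    exact h3
  · rw [hop] at h3
    show 1 < wv P V k
    rw [h3.1]
    linarith [h3.2]
  · rw [hop] at h3
    exact h3
  · rw [hop] at h3
    exact h3

theorem slp_of_sat {P : Pap} (h : P.WF) (hs : P.Sat) : P.toSlp.Sat := by
  obtain ⟨x, hx, hlt⟩ := hs
  set V := ev P.dat (fun j => x ((j - 1) / 6) - 1) with hVdef
  have h0 : V 0 false = 1 := by rw [hVdef, ev_zero]
  have hv : ∀ j, 1 ≤ j → j ≤ 6 * P.K + 2 → Rule V j (P.dat j) := by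
    intro j h1 h2
    refine ev_rule _ _ _ (good_all h j h1 h2).1 ?_
    intro ht
    obtain ⟨hk, hop, -⟩ := ty_s h1 h2 ht
    have := hx _ hk
    rw [hop] at this
    simp only at this
    show 0 < x ((j - 1) / 6) - 1
    linarith
  refine ⟨V, (isVal_iff P V).2 ⟨h0, hv⟩, (last_val h h0 hv).2 ?_⟩
  have hi := inv h h0 hv
  have key : ∀ k < P.K, wv P V k = x k := by
    intro k
    induction k using Nat.strong_induction_on with
    | _ k ih =>
    intro hk
    obtain ⟨-, -, h3⟩ := hi k hk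
    have hxk := hx k hk
    rcases hop : P.op k with _ | _ | _ | _
    · rw [hop] at h3 hxk
      simp only at h3 hxk
      rw [h3, hxk]
    · rw [hop] at h3
      simp only at h3
      have e : V (6 * k + 1) true = x k - 1 := by
        have ht : (P.dat (6 * k + 1)).1 = .s := by
          rw [show 6 * k + 1 = 6 * k + 1 + 0 by ring, dat_blk P hk (by norm_num)]
          simp [Pap.blkD, hop]
        rw [hVdef, ev, dif_pos (good_all h (6 * k + 1) (by omega) (by omega)).1, ht]
        simp only [if_true]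
        congr 2
        omega
      rw [h3.1, e]
      ring
    · have hab := h.1 k hk (Or.inl hop)
      rw [hop] at h3 hxk
      simp only at h3 hxk
      rw [h3, hxk, ih _ hab.1 (by omega), ih _ hab.2 (by omega)]
    · have hab := h.1 k hk (Or.inr hop)
      rw [hop] at h3 hxk
      simp only at h3 hxk
      rw [h3, hxk, ih _ hab.1 (by omega), ih _ hab.2 (by omega)]
  rw [key _ h.2.1, key _ h.2.2]
  exact hlt

/-- module M4 -/
theorem M4 (P : Pap) (h : P.WF) : P.toSlp.WF ∧ (P.Sat ↔ P.toSlp.Sat) :=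
  ⟨toSlp_WF h, slp_of_sat h, sat_of_slp h⟩

end Pool.Agent.helper6.SGE
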